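import Pool.Agent.N319.LQ.Top

set_option autoImplicit false

/-!
# The linear arboricity conjecture for almost all graphs of bounded degree

`H931R3.LA.la G` is the linear arboricity (the same expression as in the frozen statement S07085).
-/

namespace Pool.Agent.Results.MP_0a041d_co.AlmostAllGraphs

open SimpleGraph H931R3.LA

/-- The graph `G` satisfies the linear arboricity conjecture with the bound `Δ` for its degrees:
`la G ≤ ⌈(Δ + 1) / 2⌉`, with equality if `G` is `Δ`-regular, `Δ ≥ 1` (and `G` is not empty). -/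
def Good {V : Type} (G : SimpleGraph V) (Δ : ℕ) : Prop :=
  la G ≤ (Δ + 2) / 2 ∧
    (0 < Δ → Nonempty V → (∀ v, (G.neighborSet v).ncard = Δ) → la G = (Δ + 2) / 2)

/-- **The linear arboricity conjecture for almost all graphs of bounded degree.**  For every `Δ`
there is a constant `C` such that

(a) for every `n` and every degree sequence `d` with entries at most `Δ` and sum `M`, all but the
proportion `C / M` of the graphs with vertex set `Fin n` and degree sequence `d` satisfy the
conjecture;
(b) for every `n`, all but the proportion `C / n` of the graphs with vertex set `Fin n` of maximum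
degree at most `Δ` satisfy the conjecture. -/
theorem result (Δ : ℕ) : ∃ C : ℕ,
    (∀ (n : ℕ) (d : Fin n → ℕ), (∀ v, d v ≤ Δ) →
      (∑ v, d v) * {G : SimpleGraph (Fin n) | (∀ v, (G.neighborSet v).ncard = d v) ∧
        ¬ Good G Δ}.ncard ≤
      C * {G : SimpleGraph (Fin n) | ∀ v, (G.neighborSet v).ncard = d v}.ncard) ∧
    (∀ n : ℕ,
      n * {G : SimpleGraph (Fin n) | (∀ v, (G.neighborSet v).ncard ≤ Δ) ∧ ¬ Good G Δ}.ncard ≤
      C * {G : SimpleGraph (Fin n) | ∀ v, (G.neighborSet v).ncard ≤ Δ}.ncard) := by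
  classical
  obtain ⟨B, _, hB⟩ := Pool.Agent.N319.LQ.degseqK Δ ((Δ + 1) ^ 7) 1
  obtain ⟨B', _, hB'⟩ := Pool.Agent.N319.LQ.all_graphsK Δ ((Δ + 1) ^ 7) 1 le_rfl
  refine ⟨max ⌈B⌉₊ ⌈B'⌉₊, fun n d hd => ?_, fun n => ?_⟩
  · refine le_trans (Nat.mul_le_mul_left _ (Set.ncard_le_ncard ?_ (Set.toFinite _)))
      ((Pool.Agent.N319.LQ.nat_of_real (hB n d hd)).trans
        (Nat.mul_le_mul_right _ (le_max_left _ _)))
    rintro G ⟨hG, hbad⟩
    refine ⟨hG, ?_⟩
    by_contra hK
    apply hbad
    refine Pool.Agent.N319.LQ.all_of_sparse G Δ (fun v => by rw [hG v]; exact hd v) ?_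
    by_contra hsp
    exact hK (Pool.Agent.N319.LQ.denseK_of_not_sparse G _ hsp)
  · refine le_trans (Nat.mul_le_mul_left _ (Set.ncard_le_ncard ?_ (Set.toFinite _)))
      ((Pool.Agent.N319.LQ.nat_of_real (hB' n)).trans
        (Nat.mul_le_mul_right _ (le_max_right _ _)))
    rintro G ⟨hG, hbad⟩
    refine ⟨hG, ?_⟩
    by_contra hK
    apply hbad
    refine Pool.Agent.N319.LQ.all_of_sparse G Δ hG ?_
    by_contra hsp
    exact hK (Pool.Agent.N319.LQ.denseK_of_not_sparse G _ hsp)

end Pool.Agent.Results.MP_0a041d_co.AlmostAllGraphs
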